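import Pool.Agent.TH205.Hilb.Main

/-!
# MP_ff2328_ag, Q1: the smallest pure exponent at maximally singular points of `Hilb^l(A^3)`

Let `K` be an infinite field (for example the complex numbers, or any field of characteristic 0),
let `R = K[x, y, z]`, let `k ≥ 1` and `binom(k+2, 3) < l < binom(k+3, 3)`.  If `I` is a Borel-fixed
monomial ideal of colength `l` such that `[I]` has maximal singularity in `Hilb^l(A^3)`, then its
smallest pure exponent `m₁` equals `k`.  This is the full affirmative answer to Q1.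

Idea of the proof.  For any ideal `I` of colength `l` one has `T(I) ≤ l + 2 dim cent(A, B)`, where
`cent(A, B)` is the space of `K`-endomorphisms of `R / I` that commute with the multiplications by
`y` and `z` (`TangentLe.lean`).  For a monomial ideal with `m₁ = p` an element of `cent(A, B)` is
determined by its values at `1, x, ..., x^(p-1)`, and its value at `x^i` is killed by
`y^(b_i) z^(e_i)` as soon as `x^i y^(b_i) z^(e_i) ∈ I`.  This gives
`T(I) ≤ (2 p + 1) l - 2 (sum over i < p of Q_i)`, where `Q_i` is the number of standard monomials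
that stay standard when multiplied by `y^(b_i) z^(e_i)` (`QuadBound.lean`).  A combinatorial
estimate (`CombBasic.lean`, `CombRows.lean`, `CaseA.lean`, `CaseB.lean`, `CombMain.lean`) shows that
if `p < k`, then for suitable `b_i`, `e_i` this bound is strictly smaller than `T(J)` for `J` the
intersection of an ideal `x^c m^(k-c) + m^(k+1)` with the ideals of distinct reduced points
(`HomOf.lean`, `LowerA.lean`, `Points.lean`), so that `[I]` is not maximally singular.  The
inequality `p ≤ k` follows by counting.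
-/

open MvPolynomial

namespace Pool.Agent.Results.MP_ff2328_ag.SmallestPureExponent

/-- The polynomial ring `R = K[x, y, z]`, with `x = X 0`, `y = X 1`, `z = X 2`. -/
abbrev R (K : Type*) [Field K] := MvPolynomial (Fin 3) K

variable {K : Type*} [Field K]

/-- The monomial `x ^ a * y ^ b * z ^ c` of `K[x, y, z]`. -/
noncomputable def mon (K : Type*) [Field K] (a b c : ℕ) : R K := X 0 ^ a * X 1 ^ b * X 2 ^ c

/-- `I` is a monomial ideal: it is generated by a set of monomials (given here by its set `S` of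
exponent vectors). -/
def IsMonomialIdeal (I : Ideal (R K)) : Prop :=
  ∃ S : Set (ℕ × ℕ × ℕ), I = Ideal.span {f | ∃ a b c, (a, b, c) ∈ S ∧ f = mon K a b c}

/-- `x ^ a * y ^ b * z ^ c` is a minimal monomial generator of `I`: it lies in `I`, and no monomial
that divides it properly lies in `I`. -/
def IsMinGen (I : Ideal (R K)) (a b c : ℕ) : Prop :=
  mon K a b c ∈ I ∧ ∀ a' b' c' : ℕ, a' ≤ a → b' ≤ b → c' ≤ c → mon K a' b' c' ∈ I →
    a' = a ∧ b' = b ∧ c' = c

/-- `I` is a Borel-fixed monomial ideal, as defined in the problem: for every minimal monomial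
generator `g` of `I`, if `z ∣ g` then `x g / z ∈ I` and `y g / z ∈ I`, and if `y ∣ g` then
`x g / y ∈ I`. -/
structure BorelFixed (I : Ideal (R K)) : Prop where
  /-- `I` is a monomial ideal -/
  isMonomial : IsMonomialIdeal I
  /-- if `z ∣ g` then `x g / z ∈ I` and `y g / z ∈ I`, for `g = x^a y^b z^(c+1)` -/
  z_move : ∀ a b c : ℕ, IsMinGen I a b (c + 1) → mon K (a + 1) b c ∈ I ∧ mon K a (b + 1) c ∈ I
  /-- if `y ∣ g` then `x g / y ∈ I`, for `g = x^a y^(b+1) z^c` -/
  y_move : ∀ a b c : ℕ, IsMinGen I a (b + 1) c → mon K (a + 1) b c ∈ I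

/-- `I` has colength `l`, that is `dim_K (R / I) = l` (`Module.rank` is the dimension as a
cardinal, so this includes finiteness).  These ideals are the points `[I]` of `Hilb^l(A^3)`. -/
def HasColength (I : Ideal (R K)) (l : ℕ) : Prop := Module.rank K (R K ⧸ I) = l

/-- `T(I) = dim_K Hom_R(I, R / I)`, the dimension of the Zariski tangent space at `[I]`. -/
noncomputable def T (I : Ideal (R K)) : Cardinal := Module.rank K (I →ₗ[R K] (R K ⧸ I))

/-- `[I]` is a point of maximal singularity of `Hilb^l(A^3)`: `I` has colength `l` and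
`T(J) ≤ T(I)` for every ideal `J` of colength `l`. -/
def MaximalSingularity (l : ℕ) (I : Ideal (R K)) : Prop :=
  HasColength I l ∧ ∀ J : Ideal (R K), HasColength J l → T J ≤ T I

/-- **Answer to Q1: yes.**  Let `k ≥ 1` and `binom(k+2, 3) < l < binom(k+3, 3)`, and let `I` be a
Borel-fixed ideal of `K[x, y, z]` of colength `l` such that `[I]` has maximal singularity in
`Hilb^l(A^3)`.  Then the pure exponent `m₁` of `I` (the exponent `m₁` for which `x ^ m₁` is a
minimal generator of `I`) exists and equals `k`. -/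
theorem result {K : Type*} [Field K] [Infinite K] (k l : ℕ) (hk : 1 ≤ k)
    (hl : (k + 2).choose 3 < l) (hl' : l < (k + 3).choose 3)
    (I : Ideal (R K)) (hI : BorelFixed I) (hmax : MaximalSingularity l I) :
    ∀ m₁ : ℕ, IsMinGen I m₁ 0 0 ↔ m₁ = k := by
  have hcol : ∀ J : Ideal (R K), HasColength J l ↔
      (Module.Finite K (R K ⧸ J) ∧ Module.finrank K (R K ⧸ J) = l) := by
    intro J
    constructor
    · intro h
      refine ⟨Module.rank_lt_aleph0_iff.1 ?_, Module.finrank_eq_of_rank_eq h⟩
      rw [HasColength] at h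
      rw [h]
      exact Cardinal.natCast_lt_aleph0
    · rintro ⟨h1, h2⟩
      rw [HasColength, ← Module.finrank_eq_rank, h2]
  have hmono : Pool.Agent.TH205.Hilb.IsMono I := by
    obtain ⟨S, hS⟩ := hI.isMonomial
    refine ⟨S, ?_⟩
    rw [hS]
    congr 1
    ext f
    constructor
    · rintro ⟨a, b, c, h1, h2⟩
      exact ⟨(a, b, c), h1, h2.symm⟩
    · rintro ⟨⟨a, b, c⟩, h1, h2⟩
      exact ⟨a, b, c, h1, h2.symm⟩
  have hgen : ∀ a b c : ℕ, Pool.Agent.TH205.Hilb.MinGen I a b c → IsMinGen I a b c := by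
    rintro a b c ⟨h0, h1, h2, h3⟩
    refine ⟨h0, fun a' b' c' ha hb hc h => ?_⟩
    by_contra hne
    have hlt : a' < a ∨ b' < b ∨ c' < c := by omega
    rcases hlt with hlt | hlt | hlt
    · exact h1 (by omega) (Pool.Agent.TH205.Hilb.mono_up h (by omega) hb hc)
    · exact h2 (by omega) (Pool.Agent.TH205.Hilb.mono_up h ha (by omega) hc)
    · exact h3 (by omega) (Pool.Agent.TH205.Hilb.mono_up h ha hb (by omega))
  have hstab : Pool.Agent.TH205.Hilb.Stable I := by
    apply Pool.Agent.TH205.Hilb.stable_of_minGen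
    intro a b c hg
    have hg' := hgen a b c hg
    constructor
    · intro hc
      obtain ⟨c', rfl⟩ : ∃ c', c = c' + 1 := ⟨c - 1, by omega⟩
      exact hI.z_move a b c' hg'
    · intro hb
      obtain ⟨b', rfl⟩ : ∃ b', b = b' + 1 := ⟨b - 1, by omega⟩
      exact hI.y_move a b' c hg'
  obtain ⟨hfin, hrk⟩ := (hcol I).1 hmax.1
  have hleast : IsLeast {m : ℕ | (X 0 : R K) ^ m ∈ I} k := by
    refine Pool.Agent.TH205.Hilb.main k l hk hl.le hl' I hmono hstab hfin hrk ?_
    intro J hJ1 hJ2
    have h := hmax.2 J ((hcol J).2 ⟨hJ1, hJ2⟩)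
    have hf1 : Module.Finite K (J →ₗ[R K] (R K ⧸ J)) := Pool.Agent.TH205.Hilb.homFinite J
    have hf2 : Module.Finite K (I →ₗ[R K] (R K ⧸ I)) := Pool.Agent.TH205.Hilb.homFinite I
    rw [T, T, ← Module.finrank_eq_rank, ← Module.finrank_eq_rank] at h
    exact_mod_cast h
  have hpure : ∀ m : ℕ, mon K m 0 0 ∈ I ↔ (X 0 : R K) ^ m ∈ I := by
    intro m
    simp [mon]
  intro m₁
  constructor
  · rintro ⟨h0, h1⟩
    have h2 : k ≤ m₁ := hleast.2 ((hpure m₁).1 h0)
    have h3 := h1 k 0 0 h2 le_rfl le_rfl ((hpure k).2 hleast.1)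
    exact h3.1.symm
  · rintro rfl
    refine ⟨(hpure _).2 hleast.1, fun a' b' c' ha hb hc h => ?_⟩
    have hb0 : b' = 0 := by omega
    have hc0 : c' = 0 := by omega
    subst hb0 hc0
    exact ⟨le_antisymm ha (hleast.2 ((hpure a').1 h)), rfl, rfl⟩

end Pool.Agent.Results.MP_ff2328_ag.SmallestPureExponent
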